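import Pool.Agent.Helper88.TA.Goals
import Pool.Agent.Helper3.PP.TS

/-!
# MP_69be96_nt, project TA, packet FM: the fourth moment of a function given by labels
-/

set_option autoImplicit false

open Finset Filter Topology

open scoped Classical

namespace Pool.Agent.Helper55.TA

open Pool.Agent.Helper88.TA
open Pool.Agent.Helper88.PP (pr Rg om Sf SS uu vv dd)
open Pool.Agent.Helper88.RR (nz)
open Pool.Agent.Helper3.PP (mem_SS sumBB)

/-! ### quadruples -/

/-- the primes of a quadruple -/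
noncomputable def uQ (Q : Fin 4 → ℕ) : Finset ℕ := univ.biUnion (fun j => (Q j).primeFactors)

/-- the least common multiple of the nonzero entries, `0` if there are none -/
noncomputable def eQ (Q : Fin 4 → ℕ) : ℕ := if Q = 0 then 0 else ∏ p ∈ uQ Q, p

lemma mem_uQ {Q : Fin 4 → ℕ} {p : ℕ} : p ∈ uQ Q ↔ ∃ j, p.Prime ∧ p ∣ Q j ∧ Q j ≠ 0 := by
  simp [uQ, Nat.mem_primeFactors]

lemma uQ_prime {Q : Fin 4 → ℕ} {p : ℕ} (hp : p ∈ uQ Q) : p.Prime := by
  obtain ⟨j, h, -⟩ := mem_uQ.mp hp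
  exact h

lemma prod_uQ_pos (Q : Fin 4 → ℕ) : 0 < ∏ p ∈ uQ Q, p :=
  Finset.prod_pos fun _ hp => (uQ_prime hp).pos

lemma eQ_zero : eQ 0 = 0 := if_pos rfl

lemma eQ_of_ne {Q : Fin 4 → ℕ} (h : Q ≠ 0) : eQ Q = ∏ p ∈ uQ Q, p := if_neg h

lemma eQ_pos {Q : Fin 4 → ℕ} (h : Q ≠ 0) : 0 < eQ Q := by
  rw [eQ_of_ne h]; exact prod_uQ_pos Q

lemma eQ_pf {Q : Fin 4 → ℕ} (h : Q ≠ 0) : (eQ Q).primeFactors = uQ Q := by
  rw [eQ_of_ne h]; exact Nat.primeFactors_prod fun p hp => uQ_prime hp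

lemma eQ_sf {Q : Fin 4 → ℕ} (h : Q ≠ 0) : Squarefree (eQ Q) := by
  rw [eQ_of_ne h]
  apply Finset.squarefree_prod_of_pairwise_isCoprime
  · intro p hp q hq hpq
    rw [Function.onFun, ← Nat.coprime_iff_isRelPrime]
    exact (Nat.coprime_primes (uQ_prime hp) (uQ_prime hq)).mpr hpq
  · intro p hp
    exact (uQ_prime hp).prime.squarefree

lemma dvd_of_pf {d m : ℕ} (hd : Squarefree d) (h : ∀ p ∈ d.primeFactors, p ∣ m) : d ∣ m := by
  rw [← Nat.prod_primeFactors_of_squarefree hd]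
  exact Finset.prod_primes_dvd m (fun p hp => (Nat.prime_of_mem_primeFactors hp).prime) h

lemma eQ_dvd {Q : Fin 4 → ℕ} (h : Q ≠ 0) {m : ℕ} (hm : ∀ j, Q j ≠ 0 → Q j ∣ m) : eQ Q ∣ m := by
  rw [eQ_of_ne h]
  refine Finset.prod_primes_dvd m (fun p hp => (uQ_prime hp).prime) fun p hp => ?_
  obtain ⟨j, h1, h2, h3⟩ := mem_uQ.mp hp
  exact h2.trans (hm j h3)

lemma Qj_dvd {Q : Fin 4 → ℕ} {j : Fin 4} (hj : Q j ≠ 0) (hs : Squarefree (Q j)) :
    Q j ∣ eQ Q := by
  have h : Q ≠ 0 := fun h => hj (by rw [h]; rfl)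
  apply dvd_of_pf hs
  intro p hp
  have : p ∈ (eQ Q).primeFactors := by
    rw [eQ_pf h, mem_uQ]
    exact ⟨j, Nat.prime_of_mem_primeFactors hp, Nat.dvd_of_mem_primeFactors hp, hj⟩
  exact Nat.dvd_of_mem_primeFactors this

lemma eQ_le {Q : Fin 4 → ℕ} : max 1 (eQ Q) ≤ ∏ j, max 1 (Q j) := by
  have h0 : 0 < ∏ j, max 1 (Q j) := Finset.prod_pos fun j _ => by positivity
  by_cases h : Q = 0
  · rw [h, eQ_zero]; simp
  · apply max_le h0
    apply Nat.le_of_dvd h0
    apply eQ_dvd h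
    intro j hj
    have : Q j = max 1 (Q j) := (max_eq_right (Nat.one_le_iff_ne_zero.mpr hj)).symm
    conv_lhs => rw [this]
    exact Finset.dvd_prod_of_mem (fun j => max 1 (Q j)) (Finset.mem_univ j)

lemma eQ_Sf {z : ℕ} {Q : Fin 4 → ℕ} (h : Q ≠ 0) (hQ : ∀ j, Q j = 0 ∨ Sf z (Q j)) :
    Sf z (eQ Q) := by
  refine ⟨eQ_sf h, fun p hp hd => ?_⟩
  have : p ∈ (eQ Q).primeFactors := by
    rw [Nat.mem_primeFactors]
    exact ⟨hp, hd, (eQ_pos h).ne'⟩
  rw [eQ_pf h, mem_uQ] at this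
  obtain ⟨j, h1, h2, h3⟩ := this
  exact ((hQ j).resolve_left h3).2 p h1 h2

/-- quadruples of labels -/
noncomputable def qd (z X : ℕ) : Finset (Fin 4 → ℕ) :=
  Fintype.piFinset (fun _ : Fin 4 => insert 0 (SS z X))

lemma mem_qd {z X : ℕ} {Q : Fin 4 → ℕ} : Q ∈ qd z X ↔ ∀ j, Q j = 0 ∨ Q j ∈ SS z X := by
  simp [qd, Fintype.mem_piFinset]

lemma zero_mem_qd (z X : ℕ) : (0 : Fin 4 → ℕ) ∈ qd z X := mem_qd.mpr fun _ => Or.inl rfl

lemma qd_Sf {z X : ℕ} {Q : Fin 4 → ℕ} (hQ : Q ∈ qd z X) (j : Fin 4) : Q j = 0 ∨ Sf z (Q j) :=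
  (mem_qd.mp hQ j).imp_right fun h => (mem_SS.mp h).2

lemma eQ_mem {z X : ℕ} {Q : Fin 4 → ℕ} (hQ : Q ∈ qd z X) (h : Q ≠ 0) : eQ Q ∈ SS z (X ^ 4) := by
  rw [mem_SS]
  refine ⟨⟨eQ_pos h, ?_⟩, eQ_Sf h (qd_Sf hQ)⟩
  obtain ⟨j, hj⟩ : ∃ j, Q j ≠ 0 := by
    by_contra hc
    push Not at hc
    exact h (funext hc)
  have h1 := mem_SS.mp ((mem_qd.mp hQ j).resolve_left hj)
  have hX : 2 ≤ X := by omega
  have h2 : ∀ j, max 1 (Q j) ≤ X - 1 := by
    intro j
    rcases mem_qd.mp hQ j with h3 | h3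
    · rw [h3]; simp; omega
    · have := (mem_SS.mp h3).1
      omega
  calc eQ Q ≤ max 1 (eQ Q) := le_max_right _ _
    _ ≤ ∏ j, max 1 (Q j) := eQ_le
    _ ≤ ∏ _j : Fin 4, (X - 1) := Finset.prod_le_prod' fun j _ => h2 j
    _ = (X - 1) ^ 4 := by simp
    _ < X ^ 4 := Nat.pow_lt_pow_left (by omega) (by norm_num)

lemma card_div {e : ℕ} (he : Squarefree e) : e.divisors.card = 2 ^ e.primeFactors.card := by
  rw [Nat.card_divisors he.ne_zero]
  rw [Finset.prod_congr rfl (g := fun _ => 2)]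
  · rw [Finset.prod_const]
  · intro p hp
    have h1 := (Nat.squarefree_iff_factorization_le_one he.ne_zero).mp he p
    have h2 : 0 < e.factorization p :=
      Nat.pos_of_ne_zero (Finsupp.mem_support_iff.mp (by rw [Nat.support_factorization]; exact hp))
    omega

lemma card_fiber {z X e : ℕ} (he : Squarefree e) :
    ((((qd z X).filter (fun Q => Q ≠ 0)).filter (fun Q => eQ Q = e)).card : ℝ)
      ≤ 16 * 16 ^ e.primeFactors.card := by
  have h1 : ((qd z X).filter (fun Q => Q ≠ 0)).filter (fun Q => eQ Q = e) ⊆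
      Fintype.piFinset (fun _ : Fin 4 => insert 0 e.divisors) := by
    intro Q hQ
    rw [Finset.mem_filter, Finset.mem_filter] at hQ
    obtain ⟨⟨hQ1, hQ2⟩, hQ3⟩ := hQ
    rw [Fintype.mem_piFinset]
    intro j
    rw [Finset.mem_insert, Nat.mem_divisors]
    by_cases hj : Q j = 0
    · exact Or.inl hj
    · right
      refine ⟨?_, he.ne_zero⟩
      rw [← hQ3]
      exact Qj_dvd hj ((qd_Sf hQ1 j).resolve_left hj).1
  have h2 := Finset.card_le_card h1
  rw [Fintype.card_piFinset] at h2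
  simp only [Finset.prod_const, Finset.card_univ, Fintype.card_fin] at h2
  have h3 : (insert 0 e.divisors).card ≤ 2 * 2 ^ e.primeFactors.card := by
    refine (Finset.card_insert_le _ _).trans ?_
    rw [card_div he]
    have : 1 ≤ 2 ^ e.primeFactors.card := Nat.one_le_two_pow
    omega
  have h4 := h2.trans (Nat.pow_le_pow_left h3 4)
  have h5 : (2 * 2 ^ e.primeFactors.card) ^ 4 = 16 * 16 ^ e.primeFactors.card := by
    rw [mul_pow, ← pow_mul, mul_comm e.primeFactors.card 4, pow_mul]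
    norm_num
  rw [h5] at h4
  exact_mod_cast h4

/-- the sum over the nonzero quadruples -/
lemma sum_quad {z X : ℕ} {o C : ℝ} (ho : 0 ≤ o) (hC : 1 ≤ C) :
    ∑ Q ∈ (qd z X).filter (fun Q => Q ≠ 0), C ^ 4 * (o / eQ Q)
      ≤ o * (16 * C ^ 4 * ∑ e ∈ SS z (X ^ 4), (16 : ℝ) ^ e.primeFactors.card / e) := by
  have h1 : ∑ Q ∈ (qd z X).filter (fun Q => Q ≠ 0), C ^ 4 * (o / eQ Q)
      = ∑ e ∈ SS z (X ^ 4), ∑ Q ∈ ((qd z X).filter (fun Q => Q ≠ 0)).filter (fun Q => eQ Q = e),
        C ^ 4 * (o / eQ Q) := by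
    refine (Finset.sum_fiberwise_of_maps_to (fun Q hQ => ?_) _).symm
    rw [Finset.mem_filter] at hQ
    exact eQ_mem hQ.1 hQ.2
  rw [h1, Finset.mul_sum, Finset.mul_sum]
  refine Finset.sum_le_sum fun e he => ?_
  have h2 : ∑ Q ∈ ((qd z X).filter (fun Q => Q ≠ 0)).filter (fun Q => eQ Q = e),
      C ^ 4 * (o / eQ Q) = ((((qd z X).filter (fun Q => Q ≠ 0)).filter
        (fun Q => eQ Q = e)).card : ℝ) * (C ^ 4 * (o / e)) := by
    rw [← nsmul_eq_mul, ← Finset.sum_const]
    refine Finset.sum_congr rfl fun Q hQ => ?_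
    rw [(Finset.mem_filter.mp hQ).2]
  rw [h2]
  have h3 := card_fiber (z := z) (X := X) (mem_SS.mp he).2.1
  have h4 : 0 ≤ C ^ 4 * (o / e) := by positivity
  calc _ ≤ (16 * 16 ^ e.primeFactors.card) * (C ^ 4 * (o / e)) :=
        mul_le_mul_of_nonneg_right h3 h4
    _ = o * (16 * C ^ 4 * (16 ^ e.primeFactors.card / e)) := by ring

/-! ### the majorant at one point -/

/-- bound for the label `d` at the integer `m` -/
noncomputable def Cf (y z : ℕ) (C : ℝ) (d m : ℕ) : ℝ :=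
  if d = 0 then 1 else if d ∣ m ∧ Rg y z m then C else 0

lemma Cf_nonneg {y z : ℕ} {C : ℝ} (hC : 1 ≤ C) (d m : ℕ) : 0 ≤ Cf y z C d m := by
  unfold Cf
  split_ifs
  · exact zero_le_one
  · linarith
  · exact le_rfl

lemma Cf_le {y z : ℕ} {C : ℝ} (hC : 1 ≤ C) (d m : ℕ) : Cf y z C d m ≤ C := by
  unfold Cf
  split_ifs
  · exact hC
  · exact le_rfl
  · linarith

lemma prod_Cf_le {y z : ℕ} {C : ℝ} (hC : 1 ≤ C) (Q : Fin 4 → ℕ) (m : ℕ) :
    ∏ j, Cf y z C (Q j) m ≤ if Q = 0 then 1 else C ^ 4 := by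
  split_ifs with h
  · rw [h]; simp [Cf]
  · calc ∏ j, Cf y z C (Q j) m ≤ ∏ _j : Fin 4, C :=
          Finset.prod_le_prod (fun j _ => Cf_nonneg hC _ _) fun j _ => Cf_le hC _ _
      _ = C ^ 4 := by simp

lemma prod_Cf_zero {y z : ℕ} {C : ℝ} {Q : Fin 4 → ℕ} (h : Q ≠ 0) {m : ℕ}
    (hm : ¬ (eQ Q ∣ m ∧ Rg y z m)) : ∏ j, Cf y z C (Q j) m = 0 := by
  obtain ⟨j, hj, hj'⟩ : ∃ j, Q j ≠ 0 ∧ ¬ (Q j ∣ m ∧ Rg y z m) := by
    by_contra hc
    push Not at hc
    apply hm
    refine ⟨eQ_dvd h fun j hj => (hc j hj).1, ?_⟩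
    obtain ⟨j, hj⟩ : ∃ j, Q j ≠ 0 := by
      by_contra hc'
      push Not at hc'
      exact h (funext hc')
    exact (hc j hj).2
  apply Finset.prod_eq_zero (Finset.mem_univ j)
  unfold Cf
  rw [if_neg hj, if_neg hj']

/-! ### divisors -/

/-- the divisors of a label -/
noncomputable def dv (r : ℕ) : Finset ℕ := if r = 0 then {0} else r.divisors

/-- value of a divisor -/
noncomputable def gd (y z d m : ℕ) : ℝ := if d = 0 then 1 else if d ∣ m ∧ Rg y z m then (d : ℝ) else 0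

lemma gd_nonneg (y z d m : ℕ) : 0 ≤ gd y z d m := by
  unfold gd
  split_ifs
  · exact zero_le_one
  · positivity
  · exact le_rfl

lemma mem_dv {r d : ℕ} (h : d ∈ dv r) : (r = 0 ∧ d = 0) ∨ (r ≠ 0 ∧ d ≠ 0 ∧ d ∣ r) := by
  unfold dv at h
  split_ifs at h with hr
  · exact Or.inl ⟨hr, Finset.mem_singleton.mp h⟩
  · rw [Nat.mem_divisors] at h
    exact Or.inr ⟨hr, fun h0 => hr (by rw [h0] at h; exact zero_dvd_iff.mp h.1), h.1⟩

lemma vv_le {y z r : ℕ} (hr : r = 0 ∨ Squarefree r) (m : ℕ) :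
    |vv y z r m| ≤ ∑ d ∈ dv r, gd y z d m := by
  unfold vv dv
  split_ifs with h1 h2
  · simp [gd]
  · have hs : Squarefree r := hr.resolve_left h1
    set d0 := ∏ p ∈ r.primeFactors.filter (fun p => p ∣ m), p with hd0
    have hd1 : d0 ∣ r := by
      have h3 : d0 ∣ ∏ p ∈ r.primeFactors, p :=
        Finset.prod_dvd_prod_of_subset _ _ _ (Finset.filter_subset _ _)
      rwa [Nat.prod_primeFactors_of_squarefree hs] at h3
    have hd2 : d0 ∣ m := Finset.prod_primes_dvd m
      (fun p hp => (Nat.prime_of_mem_primeFactors (Finset.mem_filter.mp hp).1).prime)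
      fun p hp => (Finset.mem_filter.mp hp).2
    have hd3 : d0 ≠ 0 := fun h0 => h1 (by rw [h0] at hd1; exact zero_dvd_iff.mp hd1)
    have h3 : |uu r m| ≤ d0 := by
      unfold uu
      rw [Finset.abs_prod, hd0, Nat.cast_prod, Finset.prod_filter]
      refine Finset.prod_le_prod (fun _ _ => abs_nonneg _) fun p hp => ?_
      have hp1 : (1 : ℝ) ≤ p := by exact_mod_cast (Nat.prime_of_mem_primeFactors hp).one_lt.le
      split_ifs
      · rw [abs_le]; constructor <;> linarith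
      · simp
    have h4 : gd y z d0 m = d0 := by
      unfold gd
      rw [if_neg hd3, if_pos ⟨hd2, h2⟩]
    calc |uu r m| ≤ gd y z d0 m := by rw [h4]; exact h3
      _ ≤ ∑ d ∈ r.divisors, gd y z d m :=
          Finset.single_le_sum (f := fun d => gd y z d m) (fun d _ => gd_nonneg y z d m)
            (Nat.mem_divisors.mpr ⟨hd1, h1⟩)
  · rw [abs_zero]
    exact Finset.sum_nonneg fun d _ => gd_nonneg y z d m

/-- the labels with a given divisor -/
noncomputable def Rd (z X d : ℕ) : Finset ℕ :=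
  if d = 0 then {0} else (SS z X).filter (fun r => d ∣ r)

/-- majorant of the coefficients -/
noncomputable def Am (al : ℕ → ℝ) (r : ℕ) : ℝ := if r = 0 then 1 else al r

lemma Am_nonneg {al : ℕ → ℝ} (h : ∀ r, 0 ≤ al r) (r : ℕ) : 0 ≤ Am al r := by
  unfold Am
  split_ifs
  · exact zero_le_one
  · exact h r

/-- the admissible divisor functions -/
noncomputable def DD (ι : Type) [Fintype ι] [DecidableEq ι] (z X D K : ℕ) : Finset (ι → ℕ) :=
  (Fintype.piFinset (fun _ : ι => insert 0 (SS z X))).filter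
    (fun d => nz d ≤ K ∧ (∏ i, max 1 (d i)) ^ 4 ≤ D)

lemma mem_DD {ι : Type} [Fintype ι] [DecidableEq ι] {z X D K : ℕ} {d : ι → ℕ} :
    d ∈ DD ι z X D K ↔ (∀ i, d i = 0 ∨ d i ∈ SS z X) ∧ nz d ≤ K ∧ (∏ i, max 1 (d i)) ^ 4 ≤ D := by
  simp [DD, Fintype.mem_piFinset]

lemma SS_dvd {z X r d : ℕ} (hr : r ∈ SS z X) (hd : d ∣ r) (hd0 : d ≠ 0) : d ∈ SS z X := by
  rw [mem_SS] at hr ⊢
  refine ⟨⟨Nat.one_le_iff_ne_zero.mpr hd0, ?_⟩, hr.2.1.squarefree_of_dvd hd,
    fun p hp h => hr.2.2 p hp (h.trans hd)⟩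
  exact lt_of_le_of_lt (Nat.le_of_dvd hr.1.1 hd) hr.1.2

/-- pointwise bound -/
lemma point_bound {ι : Type} [Fintype ι] [DecidableEq ι] (pt : ι → ℕ) (y z X D K : ℕ)
    (C : ℝ) (T : Finset (ι → ℕ)) (c : (ι → ℕ) → ℝ) (al : ℕ → ℝ)
    (hT1 : ∀ r ∈ T, ∀ i, r i = 0 ∨ r i ∈ SS z X) (hT2 : ∀ r ∈ T, nz r ≤ K)
    (hT3 : ∀ r ∈ T, (∏ i, max 1 (r i)) ^ 4 ≤ D) (hal : ∀ r, 0 ≤ al r)
    (hc : ∀ r ∈ T, |c r| ≤ ∏ i, (if r i = 0 then 1 else al (r i)))
    (hd : ∀ d ∈ SS z X, (d : ℝ) * ∑ r ∈ (SS z X).filter (fun r => d ∣ r), al r ≤ C) (n : ℕ) :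
    |∑ r ∈ T, c r * ∏ i, vv y z (r i) (n + pt i)|
      ≤ ∑ d ∈ DD ι z X D K, ∏ i, Cf y z C (d i) (n + pt i) := by
  have hsq : ∀ r ∈ T, ∀ i, r i = 0 ∨ Squarefree (r i) := fun r hr i =>
    (hT1 r hr i).imp_right fun h => (mem_SS.mp h).2.1
  calc |∑ r ∈ T, c r * ∏ i, vv y z (r i) (n + pt i)|
      ≤ ∑ r ∈ T, |c r * ∏ i, vv y z (r i) (n + pt i)| := Finset.abs_sum_le_sum_abs _ _
    _ ≤ ∑ r ∈ T, ∏ i, (Am al (r i) * ∑ d ∈ dv (r i), gd y z d (n + pt i)) := by
        refine Finset.sum_le_sum fun r hr => ?_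
        rw [abs_mul, Finset.abs_prod, Finset.prod_mul_distrib]
        refine mul_le_mul (hc r hr) ?_ (Finset.prod_nonneg fun _ _ => abs_nonneg _)
          (Finset.prod_nonneg fun i _ => Am_nonneg hal (r i))
        exact Finset.prod_le_prod (fun _ _ => abs_nonneg _) fun i _ => vv_le (hsq r hr i) _
    _ = ∑ r ∈ T, ∑ d ∈ Fintype.piFinset (fun i => dv (r i)),
          ∏ i, (Am al (r i) * gd y z (d i) (n + pt i)) := by
        refine Finset.sum_congr rfl fun r _ => ?_
        simp only [Finset.mul_sum]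
        rw [Finset.prod_univ_sum]
    _ = ∑ d ∈ DD ι z X D K, ∑ r ∈ T.filter (fun r => d ∈ Fintype.piFinset (fun i => dv (r i))),
          ∏ i, (Am al (r i) * gd y z (d i) (n + pt i)) := by
        apply Finset.sum_comm'
        intro r d
        rw [Finset.mem_filter]
        constructor
        · rintro ⟨h1, h2⟩
          refine ⟨⟨h1, h2⟩, ?_⟩
          have h3 : ∀ i, (r i = 0 ∧ d i = 0) ∨ (r i ≠ 0 ∧ d i ≠ 0 ∧ d i ∣ r i) := fun i =>
            mem_dv (Fintype.mem_piFinset.mp h2 i)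
          rw [mem_DD]
          refine ⟨fun i => ?_, ?_, ?_⟩
          · rcases h3 i with h4 | h4
            · exact Or.inl h4.2
            · exact Or.inr (SS_dvd ((hT1 r h1 i).resolve_left h4.1) h4.2.2 h4.2.1)
          · refine le_trans ?_ (hT2 r h1)
            unfold nz
            apply Finset.card_le_card
            intro i hi
            rw [Finset.mem_filter] at hi ⊢
            refine ⟨hi.1, fun h0 => ?_⟩
            rcases h3 i with h4 | h4
            · exact hi.2 h4.2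
            · exact h4.1 h0
          · refine le_trans (Nat.pow_le_pow_left ?_ 4) (hT3 r h1)
            refine Finset.prod_le_prod' fun i _ => ?_
            rcases h3 i with h4 | h4
            · rw [h4.1, h4.2]
            · exact max_le_max le_rfl (Nat.le_of_dvd (Nat.pos_of_ne_zero h4.1) h4.2.2)
        · rintro ⟨h1, -⟩
          exact h1
    _ ≤ ∑ d ∈ DD ι z X D K, ∑ r ∈ Fintype.piFinset (fun i => Rd z X (d i)),
          ∏ i, (Am al (r i) * gd y z (d i) (n + pt i)) := by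
        refine Finset.sum_le_sum fun d hd => ?_
        refine Finset.sum_le_sum_of_subset_of_nonneg ?_ fun r _ _ =>
          Finset.prod_nonneg fun i _ => mul_nonneg (Am_nonneg hal _) (gd_nonneg _ _ _ _)
        intro r hr
        rw [Finset.mem_filter] at hr
        rw [Fintype.mem_piFinset]
        intro i
        rcases mem_dv (Fintype.mem_piFinset.mp hr.2 i) with h4 | h4
        · unfold Rd
          rw [if_pos h4.2, h4.1]
          exact Finset.mem_singleton_self 0
        · unfold Rd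
          rw [if_neg h4.2.1, Finset.mem_filter]
          exact ⟨(hT1 r hr.1 i).resolve_left h4.1, h4.2.2⟩
    _ = ∑ d ∈ DD ι z X D K, ∏ i, ∑ r ∈ Rd z X (d i), (Am al r * gd y z (d i) (n + pt i)) := by
        refine Finset.sum_congr rfl fun d _ => ?_
        rw [Finset.prod_univ_sum]
    _ ≤ ∑ d ∈ DD ι z X D K, ∏ i, Cf y z C (d i) (n + pt i) := by
        refine Finset.sum_le_sum fun d hdd => ?_
        refine Finset.prod_le_prod (fun i _ => Finset.sum_nonneg fun r _ =>
          mul_nonneg (Am_nonneg hal _) (gd_nonneg _ _ _ _)) fun i _ => ?_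
        rcases (mem_DD.mp hdd).1 i with h4 | h4
        · rw [h4]
          simp [Rd, Am, gd, Cf]
        · have h5 : d i ≠ 0 := Nat.one_le_iff_ne_zero.mp (mem_SS.mp h4).1.1
          unfold Rd Cf gd
          rw [if_neg h5, if_neg h5, if_neg h5, ← Finset.sum_mul]
          have h6 : ∑ r ∈ (SS z X).filter (fun r => d i ∣ r), Am al r
              = ∑ r ∈ (SS z X).filter (fun r => d i ∣ r), al r := by
            refine Finset.sum_congr rfl fun r hr => ?_
            have h7 := (mem_SS.mp (Finset.mem_filter.mp hr).1).1.1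
            unfold Am
            rw [if_neg (by omega)]
          rw [h6]
          split_ifs
          · rw [mul_comm]; exact hd (d i) h4
          · rw [mul_zero]

/-! ### the sum over the supports -/

/-- the factor of a quadruple -/
noncomputable def hq (C o : ℝ) (Q : Fin 4 → ℕ) : ℝ := if Q = 0 then 1 else C ^ 4 * (o / eQ Q)

lemma hq_nonneg {C o : ℝ} (hC : 1 ≤ C) (ho : 0 ≤ o) (Q : Fin 4 → ℕ) : 0 ≤ hq C o Q := by
  unfold hq
  split_ifs
  · exact zero_le_one
  · positivity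

lemma sum_supports {ι : Type} [Fintype ι] [DecidableEq ι] {z X K : ℕ} {C o : ℝ} (hC : 1 ≤ C)
    (ho : 0 ≤ o) :
    ∑ q ∈ (Fintype.piFinset (fun _ : ι => qd z X)).filter
        (fun q => (univ.filter (fun i => q i ≠ 0)).card ≤ 4 * K), ∏ i, hq C o (q i)
      ≤ (1 + Fintype.card ι * (∑ Q ∈ (qd z X).filter (fun Q => Q ≠ 0), C ^ 4 * (o / eQ Q)))
        ^ (4 * K) := by
  set t := ∑ Q ∈ (qd z X).filter (fun Q => Q ≠ 0), C ^ 4 * (o / eQ Q) with ht
  have ht0 : 0 ≤ t := Finset.sum_nonneg fun Q _ => by positivity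
  have h1 := sumBB (∅ : Finset ι) (4 * K) t ht0
  rw [Finset.card_empty, pow_zero, one_mul] at h1
  refine le_trans ?_ h1
  have h2 : ∑ q ∈ (Fintype.piFinset (fun _ : ι => qd z X)).filter
        (fun q => (univ.filter (fun i => q i ≠ 0)).card ≤ 4 * K), ∏ i, hq C o (q i)
      = ∑ B ∈ (univ : Finset (Finset ι)).filter (fun B => ∅ ⊆ B ∧ B.card ≤ 4 * K),
        ∑ q ∈ ((Fintype.piFinset (fun _ : ι => qd z X)).filter
          (fun q => (univ.filter (fun i => q i ≠ 0)).card ≤ 4 * K)).filter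
            (fun q => univ.filter (fun i => q i ≠ 0) = B), ∏ i, hq C o (q i) := by
    refine (Finset.sum_fiberwise_of_maps_to (fun q hq => ?_) _).symm
    rw [Finset.mem_filter] at hq
    exact Finset.mem_filter.mpr ⟨Finset.mem_univ _, Finset.empty_subset _, hq.2⟩
  rw [h2]
  refine Finset.sum_le_sum fun B _ => ?_
  calc ∑ q ∈ ((Fintype.piFinset (fun _ : ι => qd z X)).filter
          (fun q => (univ.filter (fun i => q i ≠ 0)).card ≤ 4 * K)).filter
            (fun q => univ.filter (fun i => q i ≠ 0) = B), ∏ i, hq C o (q i)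
      ≤ ∑ q ∈ Fintype.piFinset (fun i : ι =>
          if i ∈ B then (qd z X).filter (fun Q => Q ≠ 0) else {0}), ∏ i, hq C o (q i) := by
        refine Finset.sum_le_sum_of_subset_of_nonneg ?_ fun q _ _ =>
          Finset.prod_nonneg fun i _ => hq_nonneg hC ho _
        intro q hq
        rw [Finset.mem_filter, Finset.mem_filter] at hq
        obtain ⟨⟨h3, -⟩, h4⟩ := hq
        rw [Fintype.mem_piFinset]
        intro i
        have h5 : i ∈ B ↔ q i ≠ 0 := by
          rw [← h4, Finset.mem_filter]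
          simp
        split_ifs with h6
        · exact Finset.mem_filter.mpr ⟨Fintype.mem_piFinset.mp h3 i, h5.mp h6⟩
        · rw [Finset.mem_singleton]
          by_contra hc
          exact h6 (h5.mpr hc)
    _ = ∏ i, ∑ Q ∈ (if i ∈ B then (qd z X).filter (fun Q => Q ≠ 0) else {0}), hq C o Q := by
        rw [Finset.prod_univ_sum]
    _ = ∏ i, (if i ∈ B then t else 1) := by
        refine Finset.prod_congr rfl fun i _ => ?_
        split_ifs
        · rw [ht]
          refine Finset.sum_congr rfl fun Q hQ => ?_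
          unfold hq
          rw [if_neg (Finset.mem_filter.mp hQ).2]
        · rw [Finset.sum_singleton]
          unfold hq
          rw [if_pos rfl]
    _ = t ^ B.card := by
        rw [Finset.prod_ite, Finset.prod_const, Finset.prod_const_one, mul_one]
        congr 1
        congr 1
        ext i
        simp
    _ ≤ t ^ B.card := le_rfl

/-! ### the counts -/

lemma prod_le_of_pow {D : ℕ} (P : Fin 4 → ℕ) (h : ∀ j, P j ^ 4 ≤ D) : ∏ j, P j ≤ D := by
  obtain ⟨j0, -, hj0⟩ := Finset.exists_max_image (univ : Finset (Fin 4)) P ⟨0, Finset.mem_univ _⟩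
  calc ∏ j, P j ≤ ∏ _j : Fin 4, P j0 := Finset.prod_le_prod' fun j hj => hj0 j hj
    _ = P j0 ^ 4 := by simp
    _ ≤ D := h j0

theorem fm : StmtFM := by
  intro ι _ _ pt y z X D K N Y o C T c al hz hY ho hC hT1 hT2 hT3 hal hc hd hcount
  set W : ℝ := 16 * C ^ 4 * ∑ e ∈ SS z (X ^ 4), (16 : ℝ) ^ e.primeFactors.card / e with hW
  set t : ℝ := ∑ Q ∈ (qd z X).filter (fun Q => Q ≠ 0), C ^ 4 * (o / eQ Q) with ht
  have ht0 : 0 ≤ t := Finset.sum_nonneg fun Q _ => by positivity
  have htW : t ≤ o * W := sum_quad ho hC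
  -- one quadruple of divisor functions
  have key : ∀ p ∈ Fintype.piFinset (fun _ : Fin 4 => DD ι z X D K),
      ∑ n ∈ N, ∏ j, ∏ i, Cf y z C (p j i) (n + pt i)
        ≤ Y * ∏ i, hq C o (fun j => p j i) := by
    intro p hp
    have hp1 : ∀ j, p j ∈ DD ι z X D K := Fintype.mem_piFinset.mp hp
    have hp2 : ∀ i j, p j i = 0 ∨ Sf z (p j i) := fun i j =>
      ((mem_DD.mp (hp1 j)).1 i).imp_right fun h => (mem_SS.mp h).2
    set e : ι → ℕ := fun i => eQ (fun j => p j i) with he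
    have he0 : ∀ i, e i = 0 ↔ (fun j => p j i) = 0 := by
      intro i
      constructor
      · intro h
        by_contra hc
        exact (eQ_pos hc).ne' h
      · intro h
        rw [he]
        simp only [h, eQ_zero]
    have he1 : ∀ i, e i = 0 ∨ Sf z (e i) := by
      intro i
      by_cases h : (fun j => p j i) = 0
      · exact Or.inl ((he0 i).mpr h)
      · exact Or.inr (eQ_Sf h fun j => hp2 i j)
    have he2 : ∏ i, max 1 (e i) ≤ D := by
      calc ∏ i, max 1 (e i) ≤ ∏ i, ∏ j, max 1 (p j i) :=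
            Finset.prod_le_prod' fun i _ => eQ_le
        _ = ∏ j, ∏ i, max 1 (p j i) := Finset.prod_comm
        _ ≤ D := prod_le_of_pow _ fun j => (mem_DD.mp (hp1 j)).2.2
    have he3 : nz e ≤ 4 * K := by
      have h1 : univ.filter (fun i => e i ≠ 0) ⊆
          (univ : Finset (Fin 4)).biUnion (fun j => univ.filter (fun i => p j i ≠ 0)) := by
        intro i hi
        rw [Finset.mem_filter] at hi
        rw [Finset.mem_biUnion]
        by_contra hc
        push Not at hc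
        apply hi.2
        rw [he0]
        funext j
        by_contra h0
        exact hc j (Finset.mem_univ j) (Finset.mem_filter.mpr ⟨Finset.mem_univ i, h0⟩)
      unfold nz
      calc (univ.filter (fun i => e i ≠ 0)).card ≤ _ := Finset.card_le_card h1
        _ ≤ ∑ j : Fin 4, (univ.filter (fun i => p j i ≠ 0)).card := Finset.card_biUnion_le
        _ ≤ ∑ _j : Fin 4, K := Finset.sum_le_sum fun j _ => (mem_DD.mp (hp1 j)).2.1
        _ = 4 * K := by simp
    have h1 : ∀ n ∈ N, ∏ j, ∏ i, Cf y z C (p j i) (n + pt i)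
        ≤ (∏ i, (if e i = 0 then 1 else C ^ 4)) *
          (if (∀ i, e i ≠ 0 → e i ∣ n + pt i ∧ Rg y z (n + pt i)) then 1 else 0) := by
      intro n _
      rw [Finset.prod_comm]
      split_ifs with h2
      · rw [mul_one]
        refine Finset.prod_le_prod (fun i _ => Finset.prod_nonneg fun j _ => Cf_nonneg hC _ _)
          fun i _ => ?_
        have h3 := prod_Cf_le (y := y) (z := z) hC (fun j => p j i) (n + pt i)
        simp only [he0 i]
        exact h3
      · rw [mul_zero]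
        push Not at h2
        obtain ⟨i, h3, h4⟩ := h2
        apply le_of_eq
        apply Finset.prod_eq_zero (Finset.mem_univ i)
        refine prod_Cf_zero (Q := fun j => p j i) (fun h0 => h3 ((he0 i).mpr h0)) ?_
        rintro ⟨h5, h6⟩
        exact h4 h5 h6
    calc ∑ n ∈ N, ∏ j, ∏ i, Cf y z C (p j i) (n + pt i)
        ≤ ∑ n ∈ N, (∏ i, (if e i = 0 then 1 else C ^ 4)) *
          (if (∀ i, e i ≠ 0 → e i ∣ n + pt i ∧ Rg y z (n + pt i)) then 1 else 0) :=
          Finset.sum_le_sum h1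
      _ = (∏ i, (if e i = 0 then 1 else C ^ 4)) *
          ((N.filter (fun n => ∀ i, e i ≠ 0 → e i ∣ n + pt i ∧ Rg y z (n + pt i))).card : ℝ) := by
          rw [← Finset.mul_sum, Finset.sum_boole]
      _ ≤ (∏ i, (if e i = 0 then 1 else C ^ 4)) * (Y * ∏ i, dd o (e i)) := by
          refine mul_le_mul_of_nonneg_left (hcount e he1 he2 he3)
            (Finset.prod_nonneg fun i _ => ?_)
          split_ifs
          · exact zero_le_one
          · positivity
      _ = Y * ∏ i, hq C o (fun j => p j i) := by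
          rw [mul_left_comm, ← Finset.prod_mul_distrib]
          congr 1
          refine Finset.prod_congr rfl fun i _ => ?_
          unfold hq dd
          by_cases h : (fun j => p j i) = 0
          · rw [if_pos ((he0 i).mpr h), if_pos ((he0 i).mpr h), if_pos h, mul_one]
          · have h' : e i ≠ 0 := fun h0 => h ((he0 i).mp h0)
            rw [if_neg h', if_neg h', if_neg h]
  have hsw : Function.Injective (fun (p : Fin 4 → ι → ℕ) (i : ι) (j : Fin 4) => p j i) := by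
    intro p p' h
    funext j i
    exact congrFun (congrFun h i) j
  calc ∑ n ∈ N, (∑ r ∈ T, c r * ∏ i, vv y z (r i) (n + pt i)) ^ 4
      ≤ ∑ n ∈ N, (∑ d ∈ DD ι z X D K, ∏ i, Cf y z C (d i) (n + pt i)) ^ 4 := by
        refine Finset.sum_le_sum fun n _ => ?_
        rw [← Even.pow_abs (by decide : Even 4)]
        exact pow_le_pow_left₀ (abs_nonneg _)
          (point_bound pt y z X D K C T c al hT1 hT2 hT3 hal hc hd n) 4
    _ = ∑ n ∈ N, ∑ p ∈ Fintype.piFinset (fun _ : Fin 4 => DD ι z X D K),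
          ∏ j, ∏ i, Cf y z C (p j i) (n + pt i) := by
        refine Finset.sum_congr rfl fun n _ => ?_
        rw [← Finset.prod_univ_sum (fun _ : Fin 4 => DD ι z X D K)
          (fun _ d => ∏ i, Cf y z C (d i) (n + pt i))]
        simp
    _ = ∑ p ∈ Fintype.piFinset (fun _ : Fin 4 => DD ι z X D K), ∑ n ∈ N,
          ∏ j, ∏ i, Cf y z C (p j i) (n + pt i) := Finset.sum_comm
    _ ≤ ∑ p ∈ Fintype.piFinset (fun _ : Fin 4 => DD ι z X D K),
          Y * ∏ i, hq C o (fun j => p j i) := Finset.sum_le_sum key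
    _ = Y * ∑ q ∈ (Fintype.piFinset (fun _ : Fin 4 => DD ι z X D K)).image
          (fun (p : Fin 4 → ι → ℕ) (i : ι) (j : Fin 4) => p j i), ∏ i, hq C o (q i) := by
        rw [← Finset.mul_sum, Finset.sum_image (fun p _ p' _ h => hsw h)]
    _ ≤ Y * ∑ q ∈ (Fintype.piFinset (fun _ : ι => qd z X)).filter
        (fun q => (univ.filter (fun i => q i ≠ 0)).card ≤ 4 * K), ∏ i, hq C o (q i) := by
        refine mul_le_mul_of_nonneg_left ?_ hY
        refine Finset.sum_le_sum_of_subset_of_nonneg ?_ fun q _ _ =>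
          Finset.prod_nonneg fun i _ => hq_nonneg hC ho _
        intro q hq
        obtain ⟨p, hp, rfl⟩ := Finset.mem_image.mp hq
        have hp1 : ∀ j, p j ∈ DD ι z X D K := Fintype.mem_piFinset.mp hp
        rw [Finset.mem_filter, Fintype.mem_piFinset]
        refine ⟨fun i => mem_qd.mpr fun j => (mem_DD.mp (hp1 j)).1 i, ?_⟩
        have h1 : univ.filter (fun i => (fun j => p j i) ≠ (0 : Fin 4 → ℕ)) ⊆
            (univ : Finset (Fin 4)).biUnion (fun j => univ.filter (fun i => p j i ≠ 0)) := by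
          intro i hi
          rw [Finset.mem_filter] at hi
          rw [Finset.mem_biUnion]
          by_contra hc
          push Not at hc
          apply hi.2
          funext j
          by_contra h0
          exact hc j (Finset.mem_univ j) (Finset.mem_filter.mpr ⟨Finset.mem_univ i, h0⟩)
        calc _ ≤ _ := Finset.card_le_card h1
          _ ≤ ∑ j : Fin 4, (univ.filter (fun i => p j i ≠ 0)).card := Finset.card_biUnion_le
          _ ≤ ∑ _j : Fin 4, K := Finset.sum_le_sum fun j _ => (mem_DD.mp (hp1 j)).2.1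
          _ = 4 * K := by simp
    _ ≤ Y * (1 + Fintype.card ι * t) ^ (4 * K) :=
        mul_le_mul_of_nonneg_left (sum_supports hC ho) hY
    _ ≤ Y * (1 + Fintype.card ι * (o * W)) ^ (4 * K) := by
        refine mul_le_mul_of_nonneg_left (pow_le_pow_left₀ (by positivity) ?_ _) hY
        have := mul_le_mul_of_nonneg_left htW (Nat.cast_nonneg (α := ℝ) (Fintype.card ι))
        linarith

end Pool.Agent.Helper55.TA
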